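import Mathlib

/-!
Monotonicity in the inverse temperature of single-pass heat-bath updates started from all plus.
Spins are integer valued functions; `J` is a symmetric matrix of natural number couplings.
-/

namespace Pool.Agent.Lib.MP_b3cacc_pr

open Real Finset

/-- Probability of a plus spin given the local field `S`. -/
noncomputable def P (β : ℝ) (S : ℤ) : ℝ := exp (β * S) / (exp (β * S) + exp (-(β * S)))

theorem den_pos (β : ℝ) (S : ℤ) : 0 < exp (β * S) + exp (-(β * S)) := by positivity

theorem P_nonneg (β : ℝ) (S : ℤ) : 0 ≤ P β S := by unfold P; positivity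

theorem P_neg (β : ℝ) (S : ℤ) : P β (-S) = 1 - P β S := by
  unfold P
  have := den_pos β S
  push_cast
  rw [mul_neg, neg_neg]
  field_simp
  ring

theorem P_le_one (β : ℝ) (S : ℤ) : P β S ≤ 1 := by
  have := P_nonneg β (-S)
  rw [P_neg] at this
  linarith

theorem P_mono {β : ℝ} (hβ : 0 ≤ β) : Monotone (P β) := by
  intro S T h
  unfold P
  have h1 : β * S ≤ β * T := mul_le_mul_of_nonneg_left (by exact_mod_cast h) hβ
  have h2 : exp (β * S) ≤ exp (β * T) := exp_le_exp.2 h1
  have h3 : exp (-(β * T)) ≤ exp (-(β * S)) := exp_le_exp.2 (by linarith)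
  rw [div_le_div_iff₀ (den_pos β S) (den_pos β T)]
  have := mul_le_mul h2 h3 (exp_pos _).le (exp_pos _).le
  nlinarith

theorem P_zero (β : ℝ) : P β 0 = 1 / 2 := by
  have := P_neg β 0
  rw [neg_zero] at this
  linarith

theorem P_sign {β : ℝ} (hβ : 0 ≤ β) (S : ℤ) : (S : ℝ) ≤ 2 * S * P β S := by
  rcases le_total 0 S with h | h
  · have h1 := P_mono hβ h
    rw [P_zero] at h1
    have h2 : (0 : ℝ) ≤ S := by exact_mod_cast h
    nlinarith
  · have h1 := P_mono hβ h
    rw [P_zero] at h1
    have h2 : (S : ℝ) ≤ 0 := by exact_mod_cast h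
    nlinarith

theorem P_hasDeriv (β : ℝ) (S : ℤ) :
    HasDerivAt (fun b => P b S) (2 * S * P β S * (1 - P β S)) β := by
  have h1 : HasDerivAt (fun b : ℝ => exp (b * S)) (exp (β * S) * S) β := by
    simpa using ((hasDerivAt_id β).mul_const (S : ℝ)).exp
  have h2 : HasDerivAt (fun b : ℝ => exp (-(b * S))) (exp (-(β * S)) * (-S)) β := by
    simpa using ((hasDerivAt_id β).mul_const (S : ℝ)).neg.exp
  have h3 := h1.div (h1.add h2) (den_pos β S).ne'
  refine HasDerivAt.congr_deriv h3 ?_
  unfold P
  have := den_pos β S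
  simp only [Pi.add_apply]
  field_simp
  ring

/-- Plus probability of the comparison process. -/
noncomputable def Q (β : ℝ) (O : ℕ) (Y : ℤ) : ℝ :=
  (∑ j ∈ range (2 * O + 1), P β (Y - O + j)) / (2 * O + 1)

theorem Q_nonneg (β : ℝ) (O : ℕ) (Y : ℤ) : 0 ≤ Q β O Y := by
  unfold Q
  exact div_nonneg (sum_nonneg fun j _ => P_nonneg _ _) (by positivity)

theorem Q_le {β : ℝ} (hβ : 0 ≤ β) (O : ℕ) (Y S : ℤ) (h : Y + O ≤ S) : Q β O Y ≤ P β S := by
  unfold Q
  rw [div_le_iff₀ (by positivity)]
  have : ∑ j ∈ range (2 * O + 1), P β (Y - O + j) ≤ ∑ j ∈ range (2 * O + 1), P β S := by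
    refine sum_le_sum fun j hj => P_mono hβ ?_
    have := mem_range.1 hj
    omega
  rw [sum_const, card_range, nsmul_eq_mul] at this
  push_cast at this
  linarith

theorem Q_le_one {β : ℝ} (hβ : 0 ≤ β) (O : ℕ) (Y : ℤ) : Q β O Y ≤ 1 :=
  (Q_le hβ O Y _ le_rfl).trans (P_le_one _ _)

theorem Q_mono {β : ℝ} (hβ : 0 ≤ β) (O : ℕ) : Monotone (Q β O) := by
  intro Y Z h
  unfold Q
  refine div_le_div_of_nonneg_right (sum_le_sum fun j _ => P_mono hβ (by omega)) (by positivity)

theorem Q_neg (β : ℝ) (O : ℕ) (Y : ℤ) : Q β O (-Y) = 1 - Q β O Y := by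
  unfold Q
  have h : ∑ j ∈ range (2 * O + 1), P β (-Y - O + j)
      = ∑ j ∈ range (2 * O + 1), (1 - P β (Y - O + j)) := by
    rw [← sum_range_reflect]
    refine sum_congr rfl fun j hj => ?_
    rw [← P_neg]
    congr 1
    have := mem_range.1 hj
    omega
  rw [h, sum_sub_distrib, sum_const, card_range, nsmul_eq_mul]
  push_cast
  field_simp

/-- The odd nondecreasing function that appears in the estimate. -/
noncomputable def phi (β : ℝ) (O : ℕ) (Y : ℤ) : ℝ := Y - O * (2 * Q β O Y - 1)

theorem phi_neg (β : ℝ) (O : ℕ) (Y : ℤ) : phi β O (-Y) = -phi β O Y := by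
  unfold phi
  rw [Q_neg]
  push_cast
  ring

theorem phi_mono (β : ℝ) (O : ℕ) : Monotone (phi β O) := by
  refine monotone_int_of_le_succ fun Y => ?_
  unfold phi Q
  have h : ∑ j ∈ range (2 * O + 1), P β (Y + 1 - O + j)
      = ∑ j ∈ range (2 * O + 1), P β (Y - O + j) + P β (Y + O + 1) - P β (Y - O) := by
    have h1 := sum_range_succ (fun j : ℕ => P β (Y - O + j)) (2 * O + 1)
    have h2 := sum_range_succ' (fun j : ℕ => P β (Y - O + j)) (2 * O + 1)
    have h3 : ∑ j ∈ range (2 * O + 1), P β (Y + 1 - O + j)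
        = ∑ j ∈ range (2 * O + 1), P β (Y - O + ((j + 1 : ℕ) : ℤ)) := by
      refine sum_congr rfl fun j _ => ?_
      congr 1
      push_cast
      ring
    have h4 : Y - O + ((2 * O + 1 : ℕ) : ℤ) = Y + O + 1 := by push_cast; ring
    rw [h4] at h1
    simp only [Nat.cast_zero, add_zero] at h2
    rw [h3]
    linarith
  rw [h]
  have a1 := P_le_one β (Y + O + 1)
  have a2 := P_nonneg β (Y - O)
  have hO : (0 : ℝ) ≤ O := Nat.cast_nonneg O
  have hd : (0 : ℝ) < 2 * O + 1 := by positivity
  set A := ∑ j ∈ range (2 * O + 1), P β (Y - O + j)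
  have key : (O : ℝ) * (2 * ((P β (Y + O + 1) - P β (Y - O)) / (2 * O + 1))) ≤ 1 := by
    rw [← mul_div_assoc, ← mul_div_assoc, div_le_one hd]
    nlinarith
  have e : (A + P β (Y + O + 1) - P β (Y - O)) / (2 * O + 1)
      = A / (2 * O + 1) + (P β (Y + O + 1) - P β (Y - O)) / (2 * O + 1) := by ring
  rw [e]
  push_cast
  nlinarith

variable {Λ : Type*} [Fintype Λ] [DecidableEq Λ] (J : Λ → Λ → ℕ)

/-- Local field. -/
def fld (x : Λ) (s : Λ → ℤ) : ℤ := ∑ y, (J x y : ℤ) * s y

omit [DecidableEq Λ] in
theorem fld_mono (x : Λ) : Monotone (fld J x) := fun _ _ h =>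
  sum_le_sum fun y _ => mul_le_mul_of_nonneg_left (h y) (Int.natCast_nonneg _)

omit [DecidableEq Λ] in
theorem fld_neg (x : Λ) (s : Λ → ℤ) : fld J x (-s) = -fld J x s := by
  simp [fld]

theorem fld_update (x y : Λ) (s : Λ → ℤ) (c : ℤ) :
    fld J x (Function.update s y c) = fld J x s + J x y * (c - s y) := by
  unfold fld
  have : ∀ z, (J x z : ℤ) * Function.update s y c z
      = J x z * s z + if z = y then J x y * (c - s y) else 0 := by
    intro z
    by_cases h : z = y
    · subst h; simp; ring
    · simp [h]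
  simp only [this, sum_add_distrib, sum_ite_eq', mem_univ, if_true]

omit [Fintype Λ] in
theorem update_mono (x : Λ) {s t : Λ → ℤ} (h : s ≤ t) {a b : ℤ} (hab : a ≤ b) :
    Function.update s x a ≤ Function.update t x b := by
  intro y
  by_cases hy : y = x
  · subst hy; simpa using hab
  · simpa [hy] using h y

omit [Fintype Λ] in
/-- One averaging step preserves monotonicity. -/
theorem step_mono {p : (Λ → ℤ) → ℝ} (hp : Monotone p) (h0 : ∀ s, 0 ≤ p s) (h1 : ∀ s, p s ≤ 1)
    {G : (Λ → ℤ) → ℝ} (hG : Monotone G) (x : Λ) :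
    Monotone fun s => p s * G (Function.update s x 1) + (1 - p s) * G (Function.update s x (-1)) := by
  intro s t h
  have a1 := hG (update_mono x h (le_refl (1 : ℤ)))
  have a2 := hG (update_mono x h (le_refl (-1 : ℤ)))
  have a3 := hG (update_mono x (le_refl t) (show (-1 : ℤ) ≤ 1 by norm_num))
  have b := hp h
  have c1 := h0 s
  have c2 := h1 s
  have d1 := mul_le_mul_of_nonneg_left a1 c1
  have d2 := mul_le_mul_of_nonneg_left a2 (sub_nonneg.2 c2)
  have d3 := mul_nonneg (sub_nonneg.2 b) (sub_nonneg.2 a3)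
  simp only
  nlinarith

variable (f : (Λ → ℤ) → ℝ)

/-- Expected value of `f` after updating the sites of the list, started from `σ`. -/
noncomputable def F (β : ℝ) : List Λ → (Λ → ℤ) → ℝ
  | [], σ => f σ
  | x :: l, σ => P β (fld J x σ) * F β l (Function.update σ x 1)
      + (1 - P β (fld J x σ)) * F β l (Function.update σ x (-1))

/-- Its derivative in `β`. -/
noncomputable def D (β : ℝ) : List Λ → (Λ → ℤ) → ℝ
  | [], _ => 0
  | x :: l, σ => 2 * (fld J x σ) * P β (fld J x σ) * (1 - P β (fld J x σ))
        * (F J f β l (Function.update σ x 1) - F J f β l (Function.update σ x (-1)))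
      + P β (fld J x σ) * D β l (Function.update σ x 1)
      + (1 - P β (fld J x σ)) * D β l (Function.update σ x (-1))

theorem F_hasDeriv (β : ℝ) (l : List Λ) :
    ∀ σ, HasDerivAt (fun b => F J f b l σ) (D J f β l σ) β := by
  induction l with
  | nil => intro σ; exact hasDerivAt_const _ _
  | cons x l ih =>
    intro σ
    have h1 := P_hasDeriv β (fld J x σ)
    have h2 := (h1.mul (ih (Function.update σ x 1))).add
      ((h1.const_sub 1).mul (ih (Function.update σ x (-1))))
    refine HasDerivAt.congr_deriv h2 ?_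
    simp only [D]
    ring

theorem F_mono {β : ℝ} (hβ : 0 ≤ β) (hf : Monotone f) (l : List Λ) : Monotone (F J f β l) := by
  induction l with
  | nil => exact hf
  | cons x l ih =>
    exact step_mono ((P_mono hβ).comp (fld_mono J x)) (fun _ => P_nonneg _ _)
      (fun _ => P_le_one _ _) ih x

/-- Total coupling from `x` to the sites of the list. -/
def out (x : Λ) (l : List Λ) : ℕ := (l.map (J x)).sum

/-- Sum of the local fields at the sites of the list. -/
def tot (l : List Λ) (s : Λ → ℤ) : ℤ := (l.map fun v => fld J v s).sum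

theorem tot_update (hJ : ∀ x y, J x y = J y x) (x : Λ) (s : Λ → ℤ) (c : ℤ) (l : List Λ) :
    tot J l (Function.update s x c) = tot J l s + out J x l * (c - s x) := by
  induction l with
  | nil => simp [tot, out]
  | cons v l ih =>
    unfold tot out at *
    rw [List.map_cons, List.sum_cons, ih, fld_update, hJ v x, List.map_cons, List.sum_cons,
      List.map_cons, List.sum_cons, Nat.cast_add]
    ring

/-- Expected value of `phi` at position `j` for the comparison process. -/
noncomputable def A (β : ℝ) : List Λ → ℕ → (Λ → ℤ) → ℝ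
  | [], _, _ => 0
  | x :: l, 0, s => phi β (out J x l) (fld J x s)
  | x :: l, j + 1, s => Q β (out J x l) (fld J x s) * A β l j (Function.update s x 1)
      + (1 - Q β (out J x l) (fld J x s)) * A β l j (Function.update s x (-1))

/-- Expected value of `f` when position `j` is forced to be plus. -/
noncomputable def B (β : ℝ) : List Λ → ℕ → (Λ → ℤ) → ℝ
  | [], _, _ => 0
  | x :: l, 0, σ => F J f β l (Function.update σ x 1)
  | x :: l, j + 1, σ => P β (fld J x σ) * B β l j (Function.update σ x 1)
      + (1 - P β (fld J x σ)) * B β l j (Function.update σ x (-1))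

theorem A_mono {β : ℝ} (hβ : 0 ≤ β) (l : List Λ) : ∀ j, Monotone (A J β l j) := by
  induction l with
  | nil => intro j; exact monotone_const
  | cons x l ih =>
    intro j
    cases j with
    | zero => exact (phi_mono β _).comp (fld_mono J x)
    | succ j =>
      exact step_mono ((Q_mono hβ _).comp (fld_mono J x)) (fun _ => Q_nonneg _ _ _)
        (fun _ => Q_le_one hβ _ _) (ih j) x

theorem B_mono {β : ℝ} (hβ : 0 ≤ β) (hf : Monotone f) (l : List Λ) :
    ∀ j, Monotone (B J f β l j) := by
  induction l with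
  | nil => intro j; exact monotone_const
  | cons x l ih =>
    intro j
    cases j with
    | zero => exact fun s t h => F_mono J f hβ hf l (update_mono x h le_rfl)
    | succ j =>
      exact step_mono ((P_mono hβ).comp (fld_mono J x)) (fun _ => P_nonneg _ _)
        (fun _ => P_le_one _ _) (ih j) x

theorem A_neg (β : ℝ) (l : List Λ) : ∀ j s, A J β l j (-s) = -A J β l j s := by
  induction l with
  | nil => intro j s; simp [A]
  | cons x l ih =>
    intro j s
    cases j with
    | zero => simp only [A, fld_neg, phi_neg]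
    | succ j =>
      have h1 : Function.update (-s) x 1 = -Function.update s x (-1) := by
        ext y; by_cases hy : y = x
        · subst hy; simp
        · simp [hy]
      have h2 : Function.update (-s) x (-1) = -Function.update s x 1 := by
        ext y; by_cases hy : y = x
        · subst hy; simp
        · simp [hy]
      simp only [A, fld_neg, Q_neg, h1, h2, ih]
      ring

theorem A_zero (β : ℝ) (l : List Λ) (j : ℕ) : A J β l j 0 = 0 := by
  have := A_neg J β l j 0
  rw [neg_zero] at this
  linarith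

theorem out_eq (x : Λ) (l : List Λ) (hl : l.Nodup) :
    (out J x l : ℤ) = ∑ y, (J x y : ℤ) * (if y ∈ l then 1 else 0) := by
  unfold out
  rw [← List.sum_toFinset _ hl]
  push_cast
  simp only [mul_ite, mul_one, mul_zero]
  rw [← sum_filter]
  congr 1
  ext y
  simp

theorem main_ineq {β : ℝ} (hβ : 0 ≤ β) (hJ : ∀ x y, J x y = J y x) (hf : Monotone f)
    (l : List Λ) : l.Nodup → ∀ σ s : Λ → ℤ, (∀ y ∈ l, s y = 0) →
      (∀ y, s y + (if y ∈ l then 1 else 0) ≤ σ y) →
      ∑ j ∈ range l.length, A J β l j s * B J f β l j σ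
        ≤ D J f β l σ + tot J l s * F J f β l σ := by
  induction l with
  | nil => intro _ σ s _ _; simp [D, tot]
  | cons x l ih =>
    intro hl σ s h0 h1
    obtain ⟨hx, hl'⟩ := List.nodup_cons.1 hl
    have hsx : s x = 0 := h0 x (by simp)
    have inv0 : ∀ c : ℤ, ∀ y ∈ l, Function.update s x c y = 0 := by
      intro c y hy
      have : y ≠ x := fun h => hx (h ▸ hy)
      rw [Function.update_of_ne this]
      exact h0 y (by simp [hy])
    have inv1 : ∀ c d : ℤ, c ≤ d → ∀ y, Function.update s x c y + (if y ∈ l then 1 else 0)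
        ≤ Function.update σ x d y := by
      intro c d hcd y
      by_cases hy : y = x
      · subst hy; simpa [hx] using hcd
      · have := h1 y
        simpa [hy] using this
    have i1 := ih hl' _ _ (inv0 1) (inv1 1 1 le_rfl)
    have i2 := ih hl' _ _ (inv0 (-1)) (inv1 (-1) 1 (by norm_num))
    have i3 := ih hl' _ _ (inv0 (-1)) (inv1 (-1) (-1) le_rfl)
    rw [tot_update J hJ, hsx] at i1 i2 i3
    have hS : fld J x s + out J x l ≤ fld J x σ := by
      rw [out_eq J x l hl']
      unfold fld
      rw [← sum_add_distrib]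
      refine sum_le_sum fun y _ => ?_
      rw [← mul_add]
      refine mul_le_mul_of_nonneg_left (le_trans ?_ (h1 y)) (Int.natCast_nonneg _)
      by_cases hy : y ∈ l
      · simp [hy]
      · simp only [hy, if_false]
        split_ifs <;> omega
    have hq0 := Q_nonneg β (out J x l) (fld J x s)
    have hqp := Q_le hβ (out J x l) (fld J x s) _ hS
    have hp1 := P_le_one β (fld J x σ)
    have hsg := P_sign hβ (fld J x σ)
    have hΔ := F_mono J f hβ hf l (update_mono x (le_refl σ) (show (-1 : ℤ) ≤ 1 by norm_num))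
    have hS' : (fld J x s : ℝ) + (out J x l : ℝ) ≤ (fld J x σ : ℝ) := by exact_mod_cast hS
    rw [List.length_cons, sum_range_succ']
    simp only [A, B, D, F]
    have htot : (tot J (x :: l) s : ℝ) = fld J x s + tot J l s := by
      simp [tot]
    rw [htot]
    push_cast at i1 i2 i3
    set p := P β (fld J x σ)
    set q := Q β (out J x l) (fld J x s)
    set Fp := F J f β l (Function.update σ x 1)
    set Fm := F J f β l (Function.update σ x (-1))
    have hsum : ∑ j ∈ range l.length,
        (q * A J β l j (Function.update s x 1) + (1 - q) * A J β l j (Function.update s x (-1)))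
          * (p * B J f β l j (Function.update σ x 1)
            + (1 - p) * B J f β l j (Function.update σ x (-1)))
        ≤ q * ∑ j ∈ range l.length,
            A J β l j (Function.update s x 1) * B J f β l j (Function.update σ x 1)
          + (p - q) * ∑ j ∈ range l.length,
            A J β l j (Function.update s x (-1)) * B J f β l j (Function.update σ x 1)
          + (1 - p) * ∑ j ∈ range l.length,
            A J β l j (Function.update s x (-1)) * B J f β l j (Function.update σ x (-1)) := by
      rw [mul_sum, mul_sum, mul_sum, ← sum_add_distrib, ← sum_add_distrib]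
      refine sum_le_sum fun j _ => ?_
      have a := A_mono J hβ l j (update_mono x (le_refl s) (show (-1 : ℤ) ≤ 1 by norm_num))
      have b := B_mono J f hβ hf l j (update_mono x (le_refl σ) (show (-1 : ℤ) ≤ 1 by norm_num))
      have c := mul_nonneg (mul_nonneg hq0 (sub_nonneg.2 hp1))
        (mul_nonneg (sub_nonneg.2 a) (sub_nonneg.2 b))
      nlinarith
    have j1 := mul_le_mul_of_nonneg_left i1 hq0
    have j2 := mul_le_mul_of_nonneg_left i2 (sub_nonneg.2 hqp)
    have j3 := mul_le_mul_of_nonneg_left i3 (sub_nonneg.2 hp1)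
    have k1 := mul_le_mul_of_nonneg_right (hS'.trans hsg)
      (mul_nonneg (sub_nonneg.2 hp1) (sub_nonneg.2 hΔ))
    unfold phi
    nlinarith

theorem D_nonneg {β : ℝ} (hβ : 0 ≤ β) (hJ : ∀ x y, J x y = J y x) (hf : Monotone f)
    (l : List Λ) (hl : l.Nodup) : 0 ≤ D J f β l (fun _ => 1) := by
  have h := main_ineq J f hβ hJ hf l hl (fun _ => 1) 0 (fun _ _ => rfl)
    (fun y => by simp only [Pi.zero_apply]; split_ifs <;> omega)
  have ht : tot J l 0 = 0 := by simp [tot, fld]
  simpa [A_zero, ht] using h

/-- Stochastic monotonicity in `β`. -/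
theorem F_mono_beta (hJ : ∀ x y, J x y = J y x) (hf : Monotone f) (l : List Λ) (hl : l.Nodup)
    {β₁ β₂ : ℝ} (h2 : 0 ≤ β₂) (h : β₂ ≤ β₁) :
    F J f β₂ l (fun _ => 1) ≤ F J f β₁ l (fun _ => 1) := by
  have hm : MonotoneOn (fun b => F J f b l (fun _ => 1)) (Set.Ici 0) := by
    refine monotoneOn_of_deriv_nonneg (convex_Ici 0) ?_ ?_ ?_
    · exact fun b _ => (F_hasDeriv J f b l _).continuousAt.continuousWithinAt
    · exact fun b _ => (F_hasDeriv J f b l _).differentiableAt.differentiableWithinAt
    · intro b hb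
      rw [(F_hasDeriv J f b l _).deriv]
      exact D_nonneg J f (interior_subset hb) hJ hf l hl
  exact hm h2 (h2.trans h) h

end Pool.Agent.Lib.MP_b3cacc_pr
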