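import Pool.Agent.Lib.MP_b3cacc_pr.Defs
import Pool.Agent.Lib.MP_b3cacc_pr.Core

namespace Pool.Agent.Lib.MP_b3cacc_pr

open Finset

variable {d : ℕ} {L : Fin d → ℕ}

theorem Adj_symm {x y : Torus L} (h : Adj x y) : Adj y x := by
  obtain ⟨h1, j, h2, h3⟩ := h
  refine ⟨h1.symm, j, ?_, fun i hi => (h3 i hi).symm⟩
  rcases h2 with h2 | h2
  · right; rw [h2]; ring
  · left; rw [h2]; ring

open Classical in
/-- Adjacency matrix of the torus. -/
noncomputable def adjM (x y : Torus L) : ℕ := if Adj x y then 1 else 0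

theorem adjM_symm (x y : Torus L) : adjM x y = adjM y x := by
  unfold adjM
  by_cases h : Adj x y
  · rw [if_pos h, if_pos (Adj_symm h)]
  · rw [if_neg h, if_neg (fun h' => h (Adj_symm h'))]

variable [∀ j, NeZero (L j)]

/-- Integer valued spins. -/
def toInt (σ : Torus L → ℤˣ) : Torus L → ℤ := fun y => (σ y : ℤ)

theorem localField_eq (x : Torus L) (σ : Torus L → ℤˣ) :
    localField x σ = (fld adjM x (toInt σ) : ℝ) := by
  unfold localField fld adjM toInt
  push_cast
  refine sum_congr rfl fun y _ => ?_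
  split_ifs <;> simp

omit [∀ j, NeZero (L j)] in
theorem toInt_update [DecidableEq (Torus L)] (σ : Torus L → ℤˣ) (x : Torus L) (c : ℤˣ) :
    toInt (Function.update σ x c) = Function.update (toInt σ) x (c : ℤ) := by
  ext y
  unfold toInt
  by_cases h : y = x
  · subst h; simp
  · simp [h]

open Classical in
theorem sum_heatBath (β : ℝ) (x : Torus L) (σ : Torus L → ℤˣ) (g : (Torus L → ℤ) → ℝ) :
    ∑ τ : Torus L → ℤˣ, heatBath β x σ τ * g (toInt τ)
      = P β (fld adjM x (toInt σ)) * g (Function.update (toInt σ) x 1)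
        + (1 - P β (fld adjM x (toInt σ))) * g (Function.update (toInt σ) x (-1)) := by
  have hne : Function.update σ x 1 ≠ Function.update σ x (-1) := by
    intro h
    have := congrFun h x
    simp at this
  rw [Fintype.sum_eq_add (Function.update σ x 1) (Function.update σ x (-1)) hne]
  · rw [toInt_update, toInt_update, ← P_neg]
    unfold heatBath P
    rw [if_pos (fun y hy => by simp [hy]), if_pos (fun y hy => by simp [hy]), localField_eq]
    simp [add_comm]
  · intro τ hτ
    unfold heatBath
    rw [if_neg, zero_mul]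
    intro h
    have : τ = Function.update σ x (τ x) := by
      ext y
      by_cases hy : y = x
      · subst hy; simp
      · simp [hy, h y hy]
    rcases Int.units_eq_one_or (τ x) with h1 | h1
    · exact hτ.1 (h1 ▸ this)
    · exact hτ.2 (h1 ▸ this)

open Classical in
theorem sum_foldl (β : ℝ) (f : (Torus L → ℤ) → ℝ) (l : List (Torus L)) :
    ∀ μ : (Torus L → ℤˣ) → ℝ,
      ∑ τ, l.foldl (fun μ x τ => ∑ σ : Torus L → ℤˣ, μ σ * heatBath β x σ τ) μ τ * f (toInt τ)
        = ∑ σ, μ σ * F adjM f β l (toInt σ) := by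
  induction l with
  | nil => intro μ; rfl
  | cons x l ih =>
    intro μ
    rw [List.foldl_cons, ih]
    simp only [sum_mul]
    rw [sum_comm]
    refine sum_congr rfl fun σ _ => ?_
    simp only [mul_assoc]
    rw [← mul_sum, sum_heatBath]
    rfl

open Classical in
theorem sum_law (β : ℝ) (f : (Torus L → ℤ) → ℝ) (l : List (Torus L)) :
    ∑ τ, law β l τ * f (toInt τ) = F adjM f β l (fun _ => 1) := by
  unfold law
  rw [sum_foldl]
  simp only [ite_mul, one_mul, zero_mul, sum_ite_eq', mem_univ, if_true]
  rfl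

end Pool.Agent.Lib.MP_b3cacc_pr
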