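import Mathlib

/-!
Sequential heat-bath updates of the Ising model on a discrete torus.
-/

namespace Pool.Agent.Lib.MP_b3cacc_pr

/-- The discrete torus, the product of the cyclic groups of orders `L j`. -/
abbrev Torus {d : ℕ} (L : Fin d → ℕ) : Type := ∀ j : Fin d, ZMod (L j)

variable {d : ℕ} {L : Fin d → ℕ}

/-- Two distinct sites are neighbours if they differ by plus or minus one in exactly one
coordinate. -/
def Adj (x y : Torus L) : Prop :=
  x ≠ y ∧ ∃ j : Fin d, (y j = x j + 1 ∨ y j = x j - 1) ∧ ∀ i : Fin d, i ≠ j → y i = x i

variable [∀ j, NeZero (L j)]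

open Classical in
/-- The local field `S_x`, the sum of the spins at the neighbours of `x`. Spins are units of the
integers, that is `1` or `-1`. -/
noncomputable def localField (x : Torus L) (σ : Torus L → ℤˣ) : ℝ :=
  ∑ y : Torus L, if Adj x y then ((σ y : ℤ) : ℝ) else 0

open Classical in
/-- Transition probability from `σ` to `τ` of the heat-bath update at `x`. -/
noncomputable def heatBath (β : ℝ) (x : Torus L) (σ τ : Torus L → ℤˣ) : ℝ :=
  if ∀ y, y ≠ x → τ y = σ y then
    Real.exp (β * ((τ x : ℤ) : ℝ) * localField x σ) /
      (Real.exp (β * localField x σ) + Real.exp (-(β * localField x σ)))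
  else 0

open Classical in
/-- The law of the configuration after updating the sites of the list in order, started from the
all-plus configuration. -/
noncomputable def law (β : ℝ) (xs : List (Torus L)) : (Torus L → ℤˣ) → ℝ :=
  xs.foldl (fun μ x τ => ∑ σ : Torus L → ℤˣ, μ σ * heatBath β x σ τ)
    (fun τ => if τ = fun _ => 1 then 1 else 0)

open Classical in
/-- The expected spin at `y` at stage `j`, that is after the updates at the first `j` of the
sites `x`. -/
noncomputable def stageMagnetisation (β : ℝ) {k : ℕ} (x : Fin k → Torus L) (j : ℕ)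
    (y : Torus L) : ℝ :=
  ∑ τ : Torus L → ℤˣ, law β ((List.ofFn x).take j) τ * ((τ y : ℤ) : ℝ)

end Pool.Agent.Lib.MP_b3cacc_pr
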